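import Mathlib

/-!
# Symmetric injective tensor powers of almost square Banach spaces are almost square

For symmetric tensors `u i` over a finite-dimensional subspace `F`, and `y` in the sphere with
`‖x + y‖ ≤ 1 + δ` for all `x` in the sphere of `F`, the tensor `y ⊗ ⋯ ⊗ y` works: if `‖φ‖ ≤ 1` then
`‖φ|F‖ + |φ y| ≤ 1 + δ`, so that `|φ^{⊗N}(u i) + (φ y)^N| ≤ ‖u i‖ ‖φ|F‖^N + |φ y|^N ≤ (1 + δ)^N`
up to a factor.
-/

set_option autoImplicit false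

noncomputable section

open Filter Topology TensorProduct

namespace Pool.Agent.Results.MP_25d2c4_an.SymmetricTensor

/-- `X` is almost square. -/
def ASQ (X : Type*) [NormedAddCommGroup X] : Prop :=
  ∀ (k : ℕ) (x : Fin k → X), (∀ i, ‖x i‖ = 1) → ∀ ε : ℝ, 0 < ε →
    ∃ y : X, ‖y‖ = 1 ∧ ∀ i, ‖x i + y‖ ≤ 1 + ε

section

variable (𝕜 : Type*) [RCLike 𝕜] (X : Type*) [NormedAddCommGroup X] [NormedSpace 𝕜 X] (N : ℕ)

/-- The `N`-fold algebraic tensor power of `X`. -/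
def TPow : Type _ := ⨂[𝕜] _ : Fin N, X

instance : AddCommGroup (TPow 𝕜 X N) := inferInstanceAs (AddCommGroup (⨂[𝕜] _ : Fin N, X))

instance : Module 𝕜 (TPow 𝕜 X N) := inferInstanceAs (Module 𝕜 (⨂[𝕜] _ : Fin N, X))

variable {X N}

/-- The tensor `x_1 ⊗ ⋯ ⊗ x_N`. -/
def elem (x : Fin N → X) : TPow 𝕜 X N := PiTensorProduct.tprod 𝕜 x

variable (X N)

/-- The symmetric tensors: the span of the tensors `x ⊗ ⋯ ⊗ x`. -/
def SymTensor : Submodule 𝕜 (TPow 𝕜 X N) :=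
  Submodule.span 𝕜 (Set.range fun x : X => elem 𝕜 fun _ : Fin N => x)

/-- The functionals `φ ⊗ ⋯ ⊗ φ` on the `N`-fold algebraic tensor power, `φ` in the closed unit ball
of the dual of `X`. -/
def dualPowers : Set (TPow 𝕜 X N →ₗ[𝕜] 𝕜) :=
  {f | ∃ φ : X →L[𝕜] 𝕜, ‖φ‖ ≤ 1 ∧ ∀ x : Fin N → X, f (elem 𝕜 x) = ∏ i, φ (x i)}

variable {𝕜 X N}

/-- The symmetric injective norm: the supremum of `|(φ ⊗ ⋯ ⊗ φ)(u)|` over the `φ` in the closed unit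
ball of the dual. -/
def symNorm (u : TPow 𝕜 X N) : ℝ := sSup ((fun f => ‖f u‖) '' dualPowers 𝕜 X N)

variable (𝕜 X N)

/-- The space of the symmetric tensors. -/
def SymT : Type _ := SymTensor 𝕜 X N

instance : AddCommGroup (SymT 𝕜 X N) := inferInstanceAs (AddCommGroup (SymTensor 𝕜 X N))

instance : Module 𝕜 (SymT 𝕜 X N) := inferInstanceAs (Module 𝕜 (SymTensor 𝕜 X N))

/-- The Banach space `Z` is (with the map `J`) the completion of the symmetric tensors under the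
symmetric injective norm. -/
structure IsSymInjectiveTensorPower (Z : Type*) [NormedAddCommGroup Z] [NormedSpace 𝕜 Z]
    (J : SymT 𝕜 X N →ₗ[𝕜] Z) : Prop where
  complete : CompleteSpace Z
  norm_eq : ∀ u, ‖J u‖ = symNorm u.1
  dense : DenseRange J

variable {𝕜 X}

/-- The multilinear form `(x_1, …, x_N) ↦ φ x_1 ⋯ φ x_N`. -/
def powForm (φ : X →L[𝕜] 𝕜) : MultilinearMap 𝕜 (fun _ : Fin N => X) 𝕜 :=
  (MultilinearMap.mkPiAlgebra 𝕜 (Fin N) 𝕜).compLinearMap fun _ => (φ : X →ₗ[𝕜] 𝕜)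

/-- The functional `φ ⊗ ⋯ ⊗ φ` on the `N`-fold algebraic tensor power. -/
def tensorPow (φ : X →L[𝕜] 𝕜) : TPow 𝕜 X N →ₗ[𝕜] 𝕜 := PiTensorProduct.lift (powForm N φ)

end

section

variable {𝕜 : Type*} [RCLike 𝕜] {X : Type*} [NormedAddCommGroup X] [NormedSpace 𝕜 X] {N : ℕ}

theorem tensorPow_elem (φ : X →L[𝕜] 𝕜) (x : Fin N → X) :
    tensorPow N φ (elem 𝕜 x) = ∏ i, φ (x i) := by
  show PiTensorProduct.lift (powForm N φ) (PiTensorProduct.tprod 𝕜 x) = _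
  rw [PiTensorProduct.lift.tprod]
  simp [powForm]

theorem tensorPow_tprod (φ : X →L[𝕜] 𝕜) (x : X) :
    tensorPow N φ (elem 𝕜 fun _ : Fin N => x) = φ x ^ N := by
  rw [tensorPow_elem, Finset.prod_const, Finset.card_univ, Fintype.card_fin]

theorem mem_dualPowers {f : TPow 𝕜 X N →ₗ[𝕜] 𝕜} :
    f ∈ dualPowers 𝕜 X N ↔ ∃ φ : X →L[𝕜] 𝕜, ‖φ‖ ≤ 1 ∧ f = tensorPow N φ := by
  constructor
  · rintro ⟨φ, hφ, h⟩
    refine ⟨φ, hφ, ?_⟩
    refine PiTensorProduct.ext (MultilinearMap.ext fun x => ?_)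
    exact (h x).trans (tensorPow_elem φ x).symm
  · rintro ⟨φ, hφ, rfl⟩
    exact ⟨φ, hφ, tensorPow_elem φ⟩

theorem tensorPow_smul (c : 𝕜) (φ : X →L[𝕜] 𝕜) {u : TPow 𝕜 X N}
    (hu : u ∈ SymTensor 𝕜 X N) : tensorPow N (c • φ) u = c ^ N * tensorPow N φ u := by
  induction hu using Submodule.span_induction with
  | mem u hu =>
    obtain ⟨x, rfl⟩ := hu
    simp only [tensorPow_tprod]
    rw [_root_.smul_apply, smul_eq_mul, mul_pow]
  | zero => simp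
  | add u v _ _ hu hv => rw [map_add, map_add, hu, hv, mul_add]
  | smul a u _ hu => rw [map_smul, map_smul, hu, smul_eq_mul, smul_eq_mul]; ring

theorem tensorPow_bound {u : TPow 𝕜 X N} (hu : u ∈ SymTensor 𝕜 X N) :
    ∃ C : ℝ, 0 ≤ C ∧ ∀ φ : X →L[𝕜] 𝕜, ‖tensorPow N φ u‖ ≤ C * ‖φ‖ ^ N := by
  induction hu using Submodule.span_induction with
  | mem u hu =>
    obtain ⟨x, rfl⟩ := hu
    refine ⟨‖x‖ ^ N, by positivity, fun φ => ?_⟩
    rw [tensorPow_tprod, norm_pow, mul_comm, ← mul_pow]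
    exact pow_le_pow_left₀ (norm_nonneg _) (φ.le_opNorm x) N
  | zero => exact ⟨0, le_rfl, fun φ => by simp⟩
  | add u v _ _ hu hv =>
    obtain ⟨C, hC, h1⟩ := hu
    obtain ⟨D, hD, h2⟩ := hv
    refine ⟨C + D, add_nonneg hC hD, fun φ => ?_⟩
    rw [map_add, add_mul]
    exact (norm_add_le _ _).trans (add_le_add (h1 φ) (h2 φ))
  | smul a u _ hu =>
    obtain ⟨C, hC, h1⟩ := hu
    refine ⟨‖a‖ * C, by positivity, fun φ => ?_⟩
    rw [map_smul, norm_smul, mul_assoc]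
    exact mul_le_mul_of_nonneg_left (h1 φ) (norm_nonneg _)

theorem tensorPow_local {u : TPow 𝕜 X N} (hu : u ∈ SymTensor 𝕜 X N) :
    ∃ s : Finset X, ∀ φ ψ : X →L[𝕜] 𝕜, (∀ x ∈ s, φ x = ψ x) →
      tensorPow N φ u = tensorPow N ψ u := by
  classical
  induction hu using Submodule.span_induction with
  | mem u hu =>
    obtain ⟨x, rfl⟩ := hu
    refine ⟨{x}, fun φ ψ h => ?_⟩
    rw [tensorPow_tprod, tensorPow_tprod, h x (Finset.mem_singleton_self x)]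
  | zero => exact ⟨∅, fun φ ψ _ => by simp⟩
  | add u v _ _ hu hv =>
    obtain ⟨s, h1⟩ := hu
    obtain ⟨t, h2⟩ := hv
    refine ⟨s ∪ t, fun φ ψ h => ?_⟩
    rw [map_add, map_add, h1 φ ψ fun x hx => h x (Finset.mem_union_left _ hx),
      h2 φ ψ fun x hx => h x (Finset.mem_union_right _ hx)]
  | smul a u _ hu =>
    obtain ⟨s, h1⟩ := hu
    exact ⟨s, fun φ ψ h => by rw [map_smul, map_smul, h1 φ ψ h]⟩

theorem symNorm_bdd {u : TPow 𝕜 X N} (hu : u ∈ SymTensor 𝕜 X N) :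
    BddAbove ((fun f : TPow 𝕜 X N →ₗ[𝕜] 𝕜 => ‖f u‖) '' dualPowers 𝕜 X N) := by
  obtain ⟨C, hC, h⟩ := tensorPow_bound hu
  refine ⟨C, ?_⟩
  rintro _ ⟨f, hf, rfl⟩
  obtain ⟨φ, hφ, rfl⟩ := mem_dualPowers.mp hf
  refine (h φ).trans ?_
  exact mul_le_of_le_one_right hC (pow_le_one₀ (norm_nonneg _) hφ)

theorem le_symNorm {u : TPow 𝕜 X N} (hu : u ∈ SymTensor 𝕜 X N) {φ : X →L[𝕜] 𝕜}
    (hφ : ‖φ‖ ≤ 1) : ‖tensorPow N φ u‖ ≤ symNorm u :=
  le_csSup (symNorm_bdd hu) ⟨_, mem_dualPowers.mpr ⟨φ, hφ, rfl⟩, rfl⟩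

theorem symNorm_le {u : TPow 𝕜 X N} {C : ℝ} (hC : 0 ≤ C)
    (h : ∀ φ : X →L[𝕜] 𝕜, ‖φ‖ ≤ 1 → ‖tensorPow N φ u‖ ≤ C) : symNorm u ≤ C :=
  Real.sSup_le (by
    rintro _ ⟨f, hf, rfl⟩
    obtain ⟨φ, hφ, rfl⟩ := mem_dualPowers.mp hf
    exact h φ hφ) hC

theorem symNorm_nonneg (u : TPow 𝕜 X N) : 0 ≤ symNorm u :=
  Real.sSup_nonneg (by rintro _ ⟨f, _, rfl⟩; exact norm_nonneg _)

/-- `|(ψ ⊗ ⋯ ⊗ ψ)(u)| ≤ c ^ N ‖u‖` if `‖ψ‖ ≤ c`. -/
theorem norm_tensorPow_le (hN : N ≠ 0) {u : TPow 𝕜 X N} (hu : u ∈ SymTensor 𝕜 X N)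
    {ψ : X →L[𝕜] 𝕜} {c : ℝ} (hc : 0 ≤ c) (hψ : ‖ψ‖ ≤ c) :
    ‖tensorPow N ψ u‖ ≤ c ^ N * symNorm u := by
  rcases hc.eq_or_lt with rfl | hc
  · have h1 : ψ = (0 : 𝕜) • ψ := by
      rw [zero_smul 𝕜 ψ]
      exact norm_le_zero_iff.mp hψ
    rw [h1, tensorPow_smul _ _ hu, zero_pow hN, zero_mul, zero_pow hN, zero_mul, norm_zero]
  · have h1 : ψ = (c : 𝕜) • ((c⁻¹ : ℝ) : 𝕜) • ψ := by
      rw [smul_smul, ← RCLike.ofReal_mul, mul_inv_cancel₀ hc.ne', RCLike.ofReal_one, one_smul]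
    rw [h1, tensorPow_smul _ _ hu, norm_mul, norm_pow, RCLike.norm_ofReal, abs_of_pos hc]
    refine mul_le_mul_of_nonneg_left (le_symNorm hu ?_) (by positivity)
    rw [norm_smul, RCLike.norm_ofReal, abs_of_pos (inv_pos.mpr hc), inv_mul_le_iff₀ hc, mul_one]
    exact hψ

/-- In an almost square space, for every finite-dimensional subspace there is an almost
complementary direction. -/
theorem ASQ.exists_of_finiteDimensional (h : ASQ X) (F : Submodule 𝕜 X) [FiniteDimensional 𝕜 F]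
    {δ : ℝ} (hδ : 0 < δ) : ∃ y : X, ‖y‖ = 1 ∧ ∀ x ∈ F, ‖x‖ = 1 → ‖x + y‖ ≤ 1 + δ := by
  classical
  have hproper : ProperSpace F := FiniteDimensional.proper 𝕜 F
  have hcomp : IsCompact (Metric.sphere (0 : F) 1) := isCompact_sphere _ _
  obtain ⟨t, ht, htf, hcov⟩ := hcomp.totallyBounded.exists_subset (Metric.dist_mem_uniformity (half_pos hδ))
  obtain ⟨y, hy, hy2⟩ := h htf.toFinset.card (fun i => ((htf.toFinset.equivFin.symm i).1 : X))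
    (fun i => by
      have := ht ((htf.mem_toFinset).mp (htf.toFinset.equivFin.symm i).2)
      simpa using this) (δ / 2) (half_pos hδ)
  refine ⟨y, hy, fun x hx hx1 => ?_⟩
  have h1 : (⟨x, hx⟩ : F) ∈ Metric.sphere (0 : F) 1 := by simpa using hx1
  have h2 := hcov h1
  simp only [Set.mem_iUnion] at h2
  obtain ⟨z, hz, hxz⟩ := h2
  have h3 : ‖(z : X) + y‖ ≤ 1 + δ / 2 := by
    have := hy2 (htf.toFinset.equivFin ⟨z, htf.mem_toFinset.mpr hz⟩)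
    simpa using this
  have h4 : ‖x - z‖ < δ / 2 := by
    have : dist (⟨x, hx⟩ : F) z < δ / 2 := hxz
    rwa [Subtype.dist_eq, dist_eq_norm] at this
  calc ‖x + y‖ = ‖(x - z) + (z + y)‖ := by congr 1; abel
    _ ≤ ‖x - z‖ + ‖(z : X) + y‖ := norm_add_le _ _
    _ ≤ 1 + δ := by linarith

/-- A scalar of modulus one that rotates `a` to its modulus. -/
theorem exists_rot (a : 𝕜) : ∃ θ : 𝕜, ‖θ‖ = 1 ∧ θ * a = (‖a‖ : 𝕜) := by
  by_cases ha : a = 0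
  · exact ⟨1, by simp, by simp [ha]⟩
  · refine ⟨(‖a‖ : 𝕜) / a, ?_, div_mul_cancel₀ _ ha⟩
    rw [norm_div, RCLike.norm_ofReal, abs_norm, div_self (norm_ne_zero_iff.mpr ha)]

theorem norm_add_norm_le {F : Submodule 𝕜 X} {y : X} {δ : ℝ}
    (hy2 : ∀ x ∈ F, ‖x‖ = 1 → ‖x + y‖ ≤ 1 + δ) {φ : X →L[𝕜] 𝕜} (hφ : ‖φ‖ ≤ 1) {x : X} (hx : x ∈ F)
    (hx1 : ‖x‖ = 1) : ‖φ x‖ + ‖φ y‖ ≤ 1 + δ := by
  obtain ⟨θ, hθ, hθ2⟩ := exists_rot (φ x)
  obtain ⟨η, hη, hη2⟩ := exists_rot (φ y)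
  have hη0 : η ≠ 0 := fun h => by rw [h, norm_zero] at hη; exact zero_ne_one hη
  have h1 : ‖(η⁻¹ * θ) • x + y‖ ≤ 1 + δ := hy2 _ (F.smul_mem _ hx) (by
    rw [norm_smul, norm_mul, norm_inv, hη, hθ, hx1]; norm_num)
  have h2 : φ (η • ((η⁻¹ * θ) • x + y)) = ((‖φ x‖ + ‖φ y‖ : ℝ) : 𝕜) := by
    rw [map_smul, map_add, map_smul, smul_eq_mul, smul_eq_mul, RCLike.ofReal_add, ← hθ2, ← hη2]
    field_simp
  have h3 : ‖φ (η • ((η⁻¹ * θ) • x + y))‖ ≤ 1 + δ := by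
    refine (φ.le_opNorm _).trans ?_
    rw [norm_smul, hη, one_mul]
    have := norm_nonneg ((η⁻¹ * θ) • x + y)
    nlinarith [norm_nonneg φ]
  rw [h2, RCLike.norm_ofReal, abs_of_nonneg (by positivity)] at h3
  exact h3

theorem main_estimate (hN : N ≠ 0) {F : Submodule 𝕜 X} {y : X} {δ : ℝ} (hδ : 0 < δ)
    (hy : ‖y‖ = 1) (hy2 : ∀ x ∈ F, ‖x‖ = 1 → ‖x + y‖ ≤ 1 + δ) {u : TPow 𝕜 X N}
    (hu : u ∈ SymTensor 𝕜 X N) (hu1 : symNorm u ≤ 1 + δ)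
    (hF : ∀ φ ψ : X →L[𝕜] 𝕜, (∀ x ∈ F, φ x = ψ x) → tensorPow N φ u = tensorPow N ψ u) :
    symNorm (u + elem 𝕜 fun _ : Fin N => y) ≤ (1 + δ) * (1 + δ) ^ N := by
  refine symNorm_le (by positivity) fun φ hφ => ?_
  set b := ‖φ y‖ with hb
  have hb1 : b ≤ 1 := by
    refine (φ.le_opNorm y).trans ?_
    rw [hy, mul_one]
    exact hφ
  set c := 1 + δ - b with hc
  have hc0 : 0 ≤ c := by rw [hc]; linarith
  have h1 : ∀ x ∈ F, ‖φ x‖ ≤ c * ‖x‖ := fun x hx => by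
    by_cases hx0 : x = 0
    · simp [hx0]
    · have hxn : ‖x‖ ≠ 0 := norm_ne_zero_iff.mpr hx0
      have h2 := norm_add_norm_le hy2 hφ (F.smul_mem (((‖x‖⁻¹ : ℝ)) : 𝕜) hx) (by
        rw [norm_smul, RCLike.norm_ofReal, abs_of_nonneg (inv_nonneg.mpr (norm_nonneg x)),
          inv_mul_cancel₀ hxn])
      rw [map_smul, norm_smul, RCLike.norm_ofReal,
        abs_of_nonneg (inv_nonneg.mpr (norm_nonneg x))] at h2
      have h3 : ‖x‖⁻¹ * ‖φ x‖ ≤ c := by rw [hc]; linarith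
      rwa [inv_mul_le_iff₀ (lt_of_le_of_ne (norm_nonneg x) hxn.symm), mul_comm] at h3
  obtain ⟨ψ, hψ, hψn⟩ := exists_extension_norm_eq F (φ.comp F.subtypeL)
  have hψc : ‖ψ‖ ≤ c := by
    rw [hψn]
    exact ContinuousLinearMap.opNorm_le_bound _ hc0 fun x => h1 x x.2
  rw [map_add, tensorPow_tprod, hF φ ψ fun x hx => (hψ ⟨x, hx⟩).symm]
  calc ‖tensorPow N ψ u + φ y ^ N‖ ≤ c ^ N * symNorm u + b ^ N := by
        refine (norm_add_le _ _).trans (add_le_add (norm_tensorPow_le hN hu hc0 hψc) ?_)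
        rw [norm_pow]
    _ ≤ (1 + δ) * (c ^ N + b ^ N) := by
        have hc2 : 0 ≤ c ^ N := pow_nonneg hc0 N
        have hb2 : 0 ≤ b ^ N := pow_nonneg (norm_nonneg _) N
        nlinarith
    _ ≤ (1 + δ) * (1 + δ) ^ N := by
        refine mul_le_mul_of_nonneg_left ?_ (by positivity)
        refine (pow_add_pow_le hc0 (norm_nonneg _) hN).trans (le_of_eq ?_)
        rw [hc]
        ring

theorem symNorm_tprod {y : X} (hy : ‖y‖ = 1) :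
    symNorm (elem 𝕜 fun _ : Fin N => y) = 1 := by
  have hmem : (elem 𝕜 fun _ : Fin N => y) ∈ SymTensor 𝕜 X N :=
    Submodule.subset_span ⟨y, rfl⟩
  refine le_antisymm (symNorm_le zero_le_one fun φ hφ => ?_) ?_
  · rw [tensorPow_tprod, norm_pow]
    refine pow_le_one₀ (norm_nonneg _) ((φ.le_opNorm y).trans ?_)
    rw [hy, mul_one]
    exact hφ
  · obtain ⟨φ, hφ, hφy⟩ := exists_dual_vector 𝕜 y (by rw [hy]; exact one_ne_zero)
    have h1 := le_symNorm hmem hφ.le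
    rw [tensorPow_tprod, hφy, hy] at h1
    simpa using h1

theorem asq_of_asq (h : ASQ X) (hN : N ≠ 0) (Z : Type*) [NormedAddCommGroup Z] [NormedSpace 𝕜 Z]
    (J : SymT 𝕜 X N →ₗ[𝕜] Z) (hJ : IsSymInjectiveTensorPower 𝕜 X N Z J) : ASQ Z := by
  classical
  intro k z hz ε hε
  -- choice of `δ`
  obtain ⟨δ, hδ, hδε⟩ : ∃ δ : ℝ, 0 < δ ∧ δ + (1 + δ) * (1 + δ) ^ N ≤ 1 + ε := by
    have h1 : Continuous fun δ : ℝ => δ + (1 + δ) * (1 + δ) ^ N := by fun_prop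
    have h2 : Tendsto (fun δ : ℝ => δ + (1 + δ) * (1 + δ) ^ N) (𝓝[>] 0) (𝓝 1) := by
      have := (h1.tendsto 0).mono_left (nhdsWithin_le_nhds (s := Set.Ioi 0))
      simpa using this
    obtain ⟨δ, h3, h4⟩ := ((h2.eventually_le_const (show (1 : ℝ) < 1 + ε by linarith)).and
      self_mem_nhdsWithin).exists
    exact ⟨δ, h4, h3⟩
  -- approximation
  have h1 : ∀ i, ∃ u : SymT 𝕜 X N, ‖z i - J u‖ < δ := fun i => by
    obtain ⟨_, ⟨u, rfl⟩, hu⟩ := Metric.mem_closure_iff.mp (hJ.dense (z i)) δ hδ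
    exact ⟨u, by rwa [dist_eq_norm] at hu⟩
  choose u hu using h1
  have hu1 : ∀ i, symNorm (u i).1 ≤ 1 + δ := fun i => by
    rw [← hJ.norm_eq]
    have h2 : ‖J (u i)‖ ≤ ‖z i‖ + ‖z i - J (u i)‖ := by
      have := norm_sub_le (z i) (z i - J (u i))
      rwa [sub_sub_cancel] at this
    rw [hz i] at h2
    linarith [hu i]
  choose s hs using fun i => tensorPow_local (u i).2
  set S : Finset X := Finset.univ.biUnion s with hS
  set F : Submodule 𝕜 X := Submodule.span 𝕜 (S : Set X) with hF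
  have hfin : FiniteDimensional 𝕜 F := FiniteDimensional.span_finset 𝕜 S
  obtain ⟨y, hy, hy2⟩ := h.exists_of_finiteDimensional (𝕜 := 𝕜) F hδ
  set v : SymT 𝕜 X N := ⟨elem 𝕜 fun _ : Fin N => y,
    Submodule.subset_span ⟨y, rfl⟩⟩ with hv
  refine ⟨J v, by rw [hJ.norm_eq]; exact symNorm_tprod hy, fun i => ?_⟩
  have h2 : ‖J (u i + v)‖ ≤ (1 + δ) * (1 + δ) ^ N := by
    rw [hJ.norm_eq]
    refine main_estimate hN hδ hy hy2 (u i).2 (hu1 i) fun φ ψ h3 => hs i φ ψ fun x hx => h3 x ?_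
    exact Submodule.subset_span (Finset.mem_coe.mpr (Finset.mem_biUnion.mpr
      ⟨i, Finset.mem_univ i, hx⟩))
  calc ‖z i + J v‖ = ‖(z i - J (u i)) + J (u i + v)‖ := by rw [map_add]; congr 1; abel
    _ ≤ ‖z i - J (u i)‖ + ‖J (u i + v)‖ := norm_add_le _ _
    _ ≤ δ + (1 + δ) * (1 + δ) ^ N := add_le_add (hu i).le h2
    _ ≤ 1 + ε := hδε

end

universe u v

/-- The completion exists. -/
theorem exists_symInjectiveTensorPower (𝕜 : Type) [RCLike 𝕜] (X : Type u) [NormedAddCommGroup X]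
    [NormedSpace 𝕜 X] (N : ℕ) :
    ∃ (Z : Type u) (_ : NormedAddCommGroup Z) (_ : NormedSpace 𝕜 Z)
      (J : SymT 𝕜 X N →ₗ[𝕜] Z), IsSymInjectiveTensorPower 𝕜 X N Z J := by
  let B := {φ : X →L[𝕜] 𝕜 // ‖φ‖ ≤ 1}
  have hbdd : ∀ u : SymT 𝕜 X N, BddAbove (Set.range fun φ : B => ‖tensorPow N φ.1 u.1‖) :=
    fun u => ⟨symNorm u.1, by rintro _ ⟨φ, rfl⟩; exact le_symNorm u.2 φ.2⟩
  let J0 : SymT 𝕜 X N →ₗ[𝕜] lp (fun _ : B => 𝕜) ⊤ :=
    { toFun := fun u => ⟨fun φ => tensorPow N φ.1 u.1, memℓp_infty (hbdd u)⟩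
      map_add' := fun u v => by
        ext φ
        exact map_add (tensorPow N φ.1) u.1 v.1
      map_smul' := fun c u => by
        ext φ
        exact map_smul (tensorPow N φ.1) c u.1 }
  let Y : Submodule 𝕜 (lp (fun _ : B => 𝕜) ⊤) := (LinearMap.range J0).topologicalClosure
  have hmem : ∀ x, J0 x ∈ Y := fun x =>
    Submodule.le_topologicalClosure _ (LinearMap.mem_range_self J0 x)
  refine ⟨Y, inferInstance, inferInstance, J0.codRestrict Y hmem, ?_, ?_, ?_⟩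
  · exact (Submodule.isClosed_topologicalClosure _).completeSpace_coe
  · intro u
    show ‖J0 u‖ = _
    rw [lp.norm_eq_ciSup]
    refine le_antisymm (Real.iSup_le (fun φ => le_symNorm u.2 φ.2) (symNorm_nonneg _)) ?_
    refine symNorm_le (Real.iSup_nonneg fun _ => norm_nonneg _) fun φ hφ => ?_
    exact le_ciSup (hbdd u) ⟨φ, hφ⟩
  · intro y
    rw [Metric.mem_closure_iff]
    intro ε hε
    have h1 : (y : lp (fun _ : B => 𝕜) ⊤) ∈
      closure (LinearMap.range J0 : Set (lp (fun _ : B => 𝕜) ⊤)) := y.2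
    obtain ⟨_, ⟨x, rfl⟩, hx⟩ := Metric.mem_closure_iff.mp h1 ε hε
    exact ⟨_, ⟨x, rfl⟩, hx⟩

/-- If the Banach space `X` is almost square, so is its `N`-fold symmetric injective tensor power
for every `N ≥ 1`. -/
theorem result (𝕜 : Type) [RCLike 𝕜] (X : Type u) [NormedAddCommGroup X] [NormedSpace 𝕜 X]
    [CompleteSpace X] (h : ASQ X) (N : ℕ) (hN : 1 ≤ N) :
    (∃ (Z : Type u) (_ : NormedAddCommGroup Z) (_ : NormedSpace 𝕜 Z)
      (J : SymT 𝕜 X N →ₗ[𝕜] Z), IsSymInjectiveTensorPower 𝕜 X N Z J) ∧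
    ∀ (Z : Type v) [NormedAddCommGroup Z] [NormedSpace 𝕜 Z] (J : SymT 𝕜 X N →ₗ[𝕜] Z),
      IsSymInjectiveTensorPower 𝕜 X N Z J → ASQ Z :=
  ⟨exists_symInjectiveTensorPower 𝕜 X N, fun Z _ _ J hJ =>
    asq_of_asq h (Nat.one_le_iff_ne_zero.mp hN) Z J hJ⟩

end Pool.Agent.Results.MP_25d2c4_an.SymmetricTensor
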